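import Pool.Agent.Work.MP_766cb7_co.Core

/-!
The operator attached to the family of `Core.lean`: a set containing a member of the family is
sent to the whole ground set, every other set is fixed.
-/

namespace Pool.Agent.Work.MP_766cb7_co

open Set

universe u

variable {α : Type u}

/-- The operator: `A ↦ univ` if `A` contains a member of `𝓑`, and `A ↦ A` otherwise. -/
def op (𝓑 : Set (Set α)) (A : Set α) : Set α := {x | x ∈ A ∨ ∃ B ∈ 𝓑, B ⊆ A}

lemma mem_op {𝓑 : Set (Set α)} {A : Set α} {x : α} :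
    x ∈ op 𝓑 A ↔ x ∈ A ∨ ∃ B ∈ 𝓑, B ⊆ A := Iff.rfl

lemma op_of_mem {𝓑 : Set (Set α)} {A B : Set α} (hB : B ∈ 𝓑) (h : B ⊆ A) : op 𝓑 A = univ := by
  ext x
  simp only [mem_op, mem_univ, iff_true]
  exact Or.inr ⟨B, hB, h⟩

lemma op_of_not {𝓑 : Set (Set α)} {A : Set α} (h : ∀ B ∈ 𝓑, ¬ B ⊆ A) : op 𝓑 A = A := by
  ext x
  simp only [mem_op]
  constructor
  · rintro (hx | ⟨B, hB, hBA⟩)
    · exact hx
    · exact absurd hBA (h B hB)
  · exact Or.inl

theorem exists_operator (e : ℕ × Fin 3 → α) (he : Function.Injective e) :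
    ∃ f : Set α → Set α,
      (∀ X, X ⊆ f X) ∧
      (∀ X Y, X ⊆ Y → f X ⊆ f Y) ∧
      (∀ X, f (f X) = f X) ∧
      (∀ A B : Set α, ∀ q, q ∈ f B → q ∉ f (B \ A) → ∃ a ∈ A, a ∈ f (insert q (B \ {a}))) ∧
      (∀ Y, ∀ p ∈ f Y, ∃ U : Set α, Minimal (fun W : Set α => W ⊆ Y ∧ p ∈ f W) U ∧
        ∀ x ∈ U, x ∉ f (U \ {x})) ∧
      (∀ Y, ∀ p, p ∉ f Y → ∃ V : Set α, Maximal (fun W : Set α => Y ⊆ W ∧ p ∉ f W) V ∧
        f (insert p V) = univ) ∧
      ∃ I X : Set α, I ⊆ X ∧ (∀ J : Set α, J ⊆ I → f J = J) ∧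
        ∀ B : Set α, I ⊆ B → B ⊆ X →
          (∃ x ∈ B, x ∈ f (B \ {x})) ∨ (f B = B ∧ ∃ x ∈ X, x ∉ B) := by
  obtain ⟨𝓑, hanti, hex, hcomp, hempty, hI0, hgap⟩ := core e he
  refine ⟨op 𝓑, ?_, ?_, ?_, ?_, ?_, ?_, I0 e, X0 e, ?_, ?_, ?_⟩
  · intro X x hx
    exact Or.inl hx
  · rintro X Y hXY x (hx | ⟨B, hB, hBX⟩)
    · exact Or.inl (hXY hx)
    · exact Or.inr ⟨B, hB, hBX.trans hXY⟩
  · intro X
    by_cases h : ∃ B ∈ 𝓑, B ⊆ X
    · obtain ⟨B, hB, hBX⟩ := h
      rw [op_of_mem hB hBX, op_of_mem hB (subset_univ _)]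
    · push Not at h
      rw [op_of_not h, op_of_not h]
  · rintro A B q hq hq'
    have hqBA : ¬ (q ∈ B \ A) := fun h => hq' (Or.inl h)
    by_cases hqB : q ∈ B
    · have hqA : q ∈ A := by
        by_contra hcon
        exact hqBA ⟨hqB, hcon⟩
      refine ⟨q, hqA, Or.inl (mem_insert _ _)⟩
    · obtain (h | ⟨B₀, hB₀, hB₀B⟩) := hq
      · exact absurd h hqB
      · have h1 : ¬ B₀ ⊆ B \ A := fun h => hq' (Or.inr ⟨B₀, hB₀, h⟩)
        obtain ⟨a, ha, ha'⟩ := not_subset.mp h1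
        have haA : a ∈ A := by
          by_contra hcon
          exact ha' ⟨hB₀B ha, hcon⟩
        have hqB₀ : q ∉ B₀ := fun h => hqB (hB₀B h)
        refine ⟨a, haA, Or.inr ⟨insert q (B₀ \ {a}), hex B₀ hB₀ a ha q hqB₀, ?_⟩⟩
        exact insert_subset_insert (sdiff_subset_sdiff_left hB₀B)
  · intro Y p hp
    by_cases hpY : p ∈ Y
    · have h0 : op 𝓑 ∅ = (∅ : Set α) := by
        apply op_of_not
        intro B hB hBe
        have : B = ∅ := subset_eq_empty hBe rfl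
        exact hempty (this ▸ hB)
      refine ⟨{p}, ⟨⟨by simpa using hpY, Or.inl rfl⟩, ?_⟩, ?_⟩
      · rintro W ⟨hWY, hpW⟩ hWp
        rcases Set.subset_singleton_iff_eq.mp hWp with h | h
        · subst h
          rw [h0] at hpW
          exact absurd hpW (by simp)
        · rw [h]
      · intro x hx
        rw [mem_singleton_iff] at hx
        subst hx
        rw [sdiff_self, h0]
        simp
    · obtain (h | ⟨B, hB, hBY⟩) := hp
      · exact absurd h hpY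
      · refine ⟨B, ⟨⟨hBY, Or.inr ⟨B, hB, Subset.rfl⟩⟩, ?_⟩, ?_⟩
        · rintro W ⟨hWY, hpW⟩ hWB
          obtain (h | ⟨B', hB', hB'W⟩) := hpW
          · exact absurd (hWY h) hpY
          · have := hanti B' hB' B hB (hB'W.trans hWB)
            rw [← this]
            exact hB'W
        · rintro x hx (h | ⟨B', hB', hB'B⟩)
          · exact h.2 rfl
          · have := hanti B' hB' B hB (hB'B.trans sdiff_subset)
            rw [this] at hB'B
            exact (hB'B hx).2 rfl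
  · intro Y p hp
    have hpY : p ∉ Y := fun h => hp (Or.inl h)
    have hnY : ∀ B ∈ 𝓑, ¬ B ⊆ Y := fun B hB h => hp (Or.inr ⟨B, hB, h⟩)
    -- a member of `𝓑` containing `Y` and `p`
    obtain ⟨B, hB, hYB, hpB⟩ : ∃ B ∈ 𝓑, Y ⊆ B ∧ p ∈ B := by
      rcases hcomp Y with ⟨B, hB, hYB⟩ | ⟨B, hB, hBY⟩
      · by_cases hpB : p ∈ B
        · exact ⟨B, hB, hYB, hpB⟩
        · obtain ⟨b, hb, hb'⟩ := not_subset.mp (hnY B hB)
          refine ⟨insert p (B \ {b}), hex B hB b hb p hpB, ?_, mem_insert _ _⟩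
          intro y hy
          refine Or.inr ⟨hYB hy, ?_⟩
          rintro rfl
          exact hb' hy
      · exact absurd hBY (hnY B hB)
    have hpV : p ∉ op 𝓑 (B \ {p}) := by
      rintro (h | ⟨B', hB', hB'B⟩)
      · exact h.2 rfl
      · have := hanti B' hB' B hB (hB'B.trans sdiff_subset)
        rw [this] at hB'B
        exact (hB'B hpB).2 rfl
    refine ⟨B \ {p}, ⟨⟨?_, hpV⟩, ?_⟩, ?_⟩
    · intro y hy
      refine ⟨hYB hy, ?_⟩
      rintro rfl
      exact hpY hy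
    · rintro W ⟨hYW, hpW⟩ hVW
      intro w hw
      by_contra hcon
      have hwp : w ≠ p := by
        rintro rfl
        exact hpW (Or.inl hw)
      have hwB : w ∉ B := fun h => hcon ⟨h, hwp⟩
      apply hpW
      refine Or.inr ⟨insert w (B \ {p}), hex B hB p hpB w hwB, ?_⟩
      exact insert_subset hw hVW
    · apply op_of_mem hB
      intro b hb
      by_cases h : b = p
      · exact Or.inl h
      · exact Or.inr ⟨hb, h⟩
  · rintro x ⟨n, rfl⟩
    exact ⟨n, Or.inl rfl⟩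
  · intro J hJ
    exact op_of_not (fun B hB hBJ => hI0 B hB (hBJ.trans hJ))
  · intro X hIX hXX
    rcases hgap X hIX hXX with ⟨x, hx, B, hB, hBX⟩ | ⟨h, h'⟩
    · left
      exact ⟨x, hx, Or.inr ⟨B, hB, hBX⟩⟩
    · right
      exact ⟨op_of_not h, h'⟩

end Pool.Agent.Work.MP_766cb7_co
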