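import Mathlib

/-!
Core construction for MP_766cb7_co.

For an injection `e : ℕ × Fin 3 → α` we build a family `𝓑` of subsets of `α` which is an antichain, is
invariant under all finitary permutations (in particular under single exchanges), such that every
subset of `α` is comparable with a member of `𝓑`, but no member of `𝓑` lies between
`I0 = e(·,0)` and `X0 = e(·,0) ∪ e(·,1)`.
-/

namespace Pool.Agent.Work.MP_766cb7_co

open Set

universe u

variable {α : Type u}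

/-- A permutation with finite support. -/
def FinPerm (σ : Equiv.Perm α) : Prop := {x | σ x ≠ x}.Finite

lemma FinPerm.one : FinPerm (1 : Equiv.Perm α) := by
  simp [FinPerm]

lemma FinPerm.inv {σ : Equiv.Perm α} (h : FinPerm σ) : FinPerm σ⁻¹ := by
  unfold FinPerm at *
  refine h.subset ?_
  intro x hx hx'
  apply hx
  simp only [mem_ofPred_eq] at *
  conv_lhs => rw [← hx']
  simp

lemma FinPerm.mul {σ τ : Equiv.Perm α} (h : FinPerm σ) (h' : FinPerm τ) : FinPerm (σ * τ) := by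
  unfold FinPerm at *
  refine (h.union h').subset ?_
  intro x hx
  simp only [mem_ofPred_eq, mem_union, Equiv.Perm.coe_mul, Function.comp_apply] at *
  by_contra hcon
  push Not at hcon
  apply hx
  rw [hcon.2, hcon.1]

open Classical in
lemma FinPerm.swap (a b : α) : FinPerm (Equiv.swap a b) := by
  unfold FinPerm
  refine (Set.toFinite {a, b}).subset ?_
  intro x hx
  simp only [mem_ofPred_eq] at hx
  by_contra hcon
  simp only [mem_insert_iff, mem_singleton_iff, not_or] at hcon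
  exact hx (Equiv.swap_apply_of_ne_of_ne hcon.1 hcon.2)

/-- If `A` is contained in its image under a finitary permutation then it equals that image. -/
lemma eq_image_of_subset {σ : Equiv.Perm α} (h : FinPerm σ) {A : Set α} (hA : A ⊆ σ '' A) :
    A = σ '' A := by
  set F : Set α := {x | σ x ≠ x} with hF
  have hFfin : F.Finite := h
  have h1 : σ '' (A ∩ F) = σ '' A ∩ F := by
    ext x
    simp only [mem_image, mem_inter_iff, hF, mem_ofPred_eq]
    constructor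
    · rintro ⟨y, ⟨hy, hyF⟩, rfl⟩
      refine ⟨⟨y, hy, rfl⟩, fun hcon => hyF (σ.injective hcon)⟩
    · rintro ⟨⟨y, hy, rfl⟩, hyF⟩
      refine ⟨y, ⟨hy, fun hcon => hyF (by rw [hcon, hcon])⟩, rfl⟩
  have h2 : A ∩ F = σ '' A ∩ F := by
    apply Set.eq_of_subset_of_ncard_le
    · exact inter_subset_inter_left _ hA
    · rw [← h1, Set.ncard_image_of_injective _ σ.injective]
    · exact hFfin.subset inter_subset_right
  apply Subset.antisymm hA
  intro x hx
  by_cases hxF : x ∈ F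
  · have : x ∈ A ∩ F := by rw [h2]; exact ⟨hx, hxF⟩
    exact this.1
  · obtain ⟨y, hy, rfl⟩ := hx
    have hy' : σ y = y := by
      by_contra hcon
      exact hxF (fun h' => hcon (σ.injective h'))
    rwa [hy']

/-- Finitary equivalence of sets. -/
def Equi (A B : Set α) : Prop := ∃ σ : Equiv.Perm α, FinPerm σ ∧ B = σ '' A

lemma Equi.refl (A : Set α) : Equi A A := ⟨1, FinPerm.one, by simp⟩

lemma image_mul (σ τ : Equiv.Perm α) (A : Set α) : (σ * τ : Equiv.Perm α) '' A = σ '' (τ '' A) := by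
  rw [Set.image_image]; rfl

lemma image_inv_image (σ : Equiv.Perm α) (A : Set α) : (σ⁻¹ : Equiv.Perm α) '' (σ '' A) = A := by
  rw [← image_mul]; simp

lemma Equi.symm {A B : Set α} (h : Equi A B) : Equi B A := by
  obtain ⟨σ, hσ, rfl⟩ := h
  exact ⟨σ⁻¹, hσ.inv, by rw [image_inv_image]⟩

lemma Equi.trans {A B C : Set α} (h : Equi A B) (h' : Equi B C) : Equi A C := by
  obtain ⟨σ, hσ, rfl⟩ := h
  obtain ⟨τ, hτ, rfl⟩ := h'
  exact ⟨τ * σ, hτ.mul hσ, by rw [image_mul]⟩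

lemma Equi.eq_of_subset {A B : Set α} (h : Equi A B) (hs : A ⊆ B) : A = B := by
  obtain ⟨σ, hσ, rfl⟩ := h
  exact eq_image_of_subset hσ hs

lemma Equi.diff_finite {A B : Set α} (h : Equi A B) : (A \ B).Finite := by
  obtain ⟨σ, hσ, rfl⟩ := h
  refine hσ.subset ?_
  rintro x ⟨hx, hx'⟩ hcon
  exact hx' ⟨x, hx, hcon⟩

/-- Exchange one element. -/
lemma Equi.exchange {A : Set α} {a b : α} (ha : a ∈ A) (hb : b ∉ A) :
    Equi A (insert b (A \ {a})) := by
  classical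
  refine ⟨Equiv.swap a b, FinPerm.swap a b, ?_⟩
  ext x
  simp only [mem_insert_iff, mem_sdiff, mem_singleton_iff, mem_image]
  constructor
  · rintro (rfl | ⟨hx, hxa⟩)
    · exact ⟨a, ha, Equiv.swap_apply_left _ _⟩
    · refine ⟨x, hx, Equiv.swap_apply_of_ne_of_ne hxa ?_⟩
      rintro rfl
      exact hb hx
  · rintro ⟨y, hy, rfl⟩
    by_cases hya : y = a
    · subst hya
      left
      exact Equiv.swap_apply_left _ _
    · have hyb : y ≠ b := by rintro rfl; exact hb hy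
      rw [Equiv.swap_apply_of_ne_of_ne hya hyb]
      exact Or.inr ⟨hy, hya⟩

/-- A family closed under finitary equivalence. -/
def Inv (𝓑 : Set (Set α)) : Prop := ∀ A ∈ 𝓑, ∀ B, Equi A B → B ∈ 𝓑

/-- An antichain. -/
def Anti (𝓑 : Set (Set α)) : Prop := ∀ A ∈ 𝓑, ∀ B ∈ 𝓑, A ⊆ B → A = B

/-- Every invariant antichain extends to an invariant antichain which is maximal among all
antichains: every set is comparable with one of its members. -/
theorem exists_maximal (𝓐 : Set (Set α)) (hinv : Inv 𝓐) (hanti : Anti 𝓐) :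
    ∃ 𝓑 : Set (Set α), 𝓐 ⊆ 𝓑 ∧ Inv 𝓑 ∧ Anti 𝓑 ∧
      ∀ A : Set α, (∃ B ∈ 𝓑, A ⊆ B) ∨ (∃ B ∈ 𝓑, B ⊆ A) := by
  have hz : ∀ c ⊆ {𝓒 : Set (Set α) | Inv 𝓒 ∧ Anti 𝓒}, IsChain (fun x1 x2 => x1 ⊆ x2) c →
      c.Nonempty → ∃ ub ∈ {𝓒 : Set (Set α) | Inv 𝓒 ∧ Anti 𝓒}, ∀ s ∈ c, s ⊆ ub := by
    intro c hc hchain hne
    refine ⟨⋃₀ c, ⟨?_, ?_⟩, fun s hs => subset_sUnion_of_mem hs⟩
    · rintro A ⟨s, hs, hA⟩ B hAB
      exact ⟨s, hs, (hc hs).1 A hA B hAB⟩
    · rintro A ⟨s, hs, hA⟩ B ⟨t, ht, hB⟩ hAB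
      rcases hchain.total hs ht with h | h
      · exact (hc ht).2 A (h hA) B hB hAB
      · exact (hc hs).2 A hA B (h hB) hAB
  obtain ⟨𝓑, hsub, hmax⟩ := zorn_subset_nonempty {𝓒 : Set (Set α) | Inv 𝓒 ∧ Anti 𝓒} hz 𝓐
    ⟨hinv, hanti⟩
  refine ⟨𝓑, hsub, hmax.prop.1, hmax.prop.2, ?_⟩
  intro A
  by_contra hcon
  push Not at hcon
  obtain ⟨hc1, hc2⟩ := hcon
  have key : ∀ A', Equi A A' → ∀ B ∈ 𝓑, ¬ A' ⊆ B ∧ ¬ B ⊆ A' := by
    rintro A' ⟨σ, hσ, rfl⟩ B hB
    constructor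
    · intro hs
      refine hc1 ((σ⁻¹ : Equiv.Perm α) '' B) (hmax.prop.1 B hB _ ⟨σ⁻¹, hσ.inv, rfl⟩) ?_
      have := Set.image_mono (f := (σ⁻¹ : Equiv.Perm α)) hs
      rwa [image_inv_image] at this
    · intro hs
      refine hc2 ((σ⁻¹ : Equiv.Perm α) '' B) (hmax.prop.1 B hB _ ⟨σ⁻¹, hσ.inv, rfl⟩) ?_
      have := Set.image_mono (f := (σ⁻¹ : Equiv.Perm α)) hs
      rwa [image_inv_image] at this
  have hmem : 𝓑 ∪ {A' | Equi A A'} ∈ {𝓒 : Set (Set α) | Inv 𝓒 ∧ Anti 𝓒} := by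
    constructor
    · rintro B (hB | hB) C hBC
      · exact Or.inl (hmax.prop.1 B hB C hBC)
      · exact Or.inr (Equi.trans hB hBC)
    · rintro B (hB | hB) C (hC | hC) hBC
      · exact hmax.prop.2 B hB C hC hBC
      · exact absurd hBC (key C hC B hB).2
      · exact absurd hBC (key B hB C hC).1
      · exact Equi.eq_of_subset (Equi.trans (Equi.symm hB) hC) hBC
  have hle := hmax.le_of_ge hmem (subset_union_left)
  have hA : A ∈ 𝓑 := hle (Or.inr (Equi.refl A))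
  exact hc1 A hA Subset.rfl

section Families

variable (e : ℕ × Fin 3 → α)

/-- `I0` -/
def I0 : Set α := {x | ∃ n : ℕ, x = e (n, 0)}

/-- `X0` -/
def X0 : Set α := {x | ∃ n : ℕ, x = e (n, 0) ∨ x = e (n, 1)}

/-- `Tr i j Y` picks `e (n, j)` for `n ∈ Y` and `e (n, i)` otherwise. -/
def Tr (i j : Fin 3) (Y : Set ℕ) : Set α :=
  {x | ∃ n : ℕ, (n ∈ Y ∧ x = e (n, j)) ∨ (n ∉ Y ∧ x = e (n, i))}

variable {e}

lemma mem_Tr (he : Function.Injective e) {i j : Fin 3} (Y : Set ℕ) (n : ℕ) (k : Fin 3) :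
    e (n, k) ∈ Tr e i j Y ↔ (n ∈ Y ∧ k = j) ∨ (n ∉ Y ∧ k = i) := by
  unfold Tr
  simp only [mem_ofPred_eq]
  constructor
  · rintro ⟨m, (⟨h1, h2⟩ | ⟨h1, h2⟩)⟩
    · have := he h2
      simp only [Prod.mk.injEq] at this
      obtain ⟨rfl, rfl⟩ := this
      exact Or.inl ⟨h1, rfl⟩
    · have := he h2
      simp only [Prod.mk.injEq] at this
      obtain ⟨rfl, rfl⟩ := this
      exact Or.inr ⟨h1, rfl⟩
  · rintro (⟨h1, rfl⟩ | ⟨h1, rfl⟩)
    · exact ⟨n, Or.inl ⟨h1, rfl⟩⟩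
    · exact ⟨n, Or.inr ⟨h1, rfl⟩⟩

/-- Adding one index to `Y` is an exchange. -/
lemma equi_Tr_insert (he : Function.Injective e) {i j : Fin 3} (hij : i ≠ j) (R : Set α)
    (hR : ∀ n, e (n, j) ∉ R) (hR' : ∀ n, e (n, i) ∉ R) (Y : Set ℕ) (n : ℕ) (hn : n ∉ Y) :
    Equi (R ∪ Tr e i j Y) (R ∪ Tr e i j (insert n Y)) := by
  have ha : e (n, i) ∈ R ∪ Tr e i j Y := Or.inr ((mem_Tr he Y n i).2 (Or.inr ⟨hn, rfl⟩))
  have hb : e (n, j) ∉ R ∪ Tr e i j Y := by
    rintro (h | h)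
    · exact hR n h
    · rw [mem_Tr he] at h
      rcases h with h | h
      · exact hn h.1
      · exact hij h.2.symm
  have h := Equi.exchange ha hb
  convert h using 1
  ext x
  simp only [mem_union, mem_insert_iff, mem_sdiff, mem_singleton_iff]
  constructor
  · rintro (hx | ⟨m, (⟨h1, rfl⟩ | ⟨h1, rfl⟩)⟩)
    · right
      refine ⟨Or.inl hx, ?_⟩
      rintro rfl
      exact hR' n hx
    · rcases h1 with rfl | h1
      · exact Or.inl rfl
      · right
        refine ⟨Or.inr ⟨m, Or.inl ⟨h1, rfl⟩⟩, ?_⟩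
        intro hcon
        have := he hcon
        simp only [Prod.mk.injEq] at this
        exact hij this.2.symm
    · right
      simp only [mem_insert_iff, not_or] at h1
      refine ⟨Or.inr ⟨m, Or.inr ⟨h1.2, rfl⟩⟩, ?_⟩
      intro hcon
      have := he hcon
      simp only [Prod.mk.injEq] at this
      exact h1.1 this.1
  · rintro (rfl | ⟨(hx | hx), hne⟩)
    · right
      exact ⟨n, Or.inl ⟨Set.mem_insert _ _, rfl⟩⟩
    · exact Or.inl hx
    · right
      obtain ⟨m, (⟨h1, rfl⟩ | ⟨h1, rfl⟩)⟩ := hx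
      · exact ⟨m, Or.inl ⟨Set.mem_insert_of_mem _ h1, rfl⟩⟩
      · refine ⟨m, Or.inr ⟨?_, rfl⟩⟩
        simp only [mem_insert_iff, not_or]
        refine ⟨?_, h1⟩
        rintro rfl
        exact hne rfl

lemma equi_Tr_union (he : Function.Injective e) {i j : Fin 3} (hij : i ≠ j) (R : Set α)
    (hR : ∀ n, e (n, j) ∉ R) (hR' : ∀ n, e (n, i) ∉ R) (Y D : Set ℕ) (hD : D.Finite) :
    Equi (R ∪ Tr e i j Y) (R ∪ Tr e i j (Y ∪ D)) := by
  induction D, hD using Set.Finite.induction_on with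
  | empty => simpa using Equi.refl _
  | @insert a s ha hs ih =>
    refine ih.trans ?_
    by_cases h : a ∈ Y ∪ s
    · have : Y ∪ insert a s = Y ∪ s := by
        rw [Set.union_insert]
        exact Set.insert_eq_of_mem h
      rw [this]
      exact Equi.refl _
    · have := equi_Tr_insert he hij R hR hR' (Y ∪ s) a h
      rwa [← Set.union_insert] at this

lemma equi_Tr (he : Function.Injective e) {i j : Fin 3} (hij : i ≠ j) (R : Set α)
    (hR : ∀ n, e (n, j) ∉ R) (hR' : ∀ n, e (n, i) ∉ R) (Y Y' : Set ℕ)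
    (h : (Y \ Y').Finite) (h' : (Y' \ Y).Finite) :
    Equi (R ∪ Tr e i j Y) (R ∪ Tr e i j Y') := by
  have h1 := equi_Tr_union he hij R hR hR' Y (Y' \ Y) h'
  have h2 := equi_Tr_union he hij R hR hR' Y' (Y \ Y') h
  have h3 : Y ∪ (Y' \ Y) = Y' ∪ (Y \ Y') := by
    rw [Set.union_sdiff_self, Set.union_sdiff_self, Set.union_comm]
  rw [h3] at h1
  exact h1.trans h2.symm

/-- The basic antichain. -/
def Base (e : ℕ × Fin 3 → α) : Set (Set α) :=
  {A | Equi (I0 e ∪ Tr e 2 1 ∅) A ∨ ∃ Y : Set ℕ, Y.Infinite ∧ Equi (Tr e 0 1 Y) A}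

lemma Base_inv : Inv (Base e) := by
  rintro A (hA | ⟨Y, hY, hA⟩) B hAB
  · exact Or.inl (hA.trans hAB)
  · exact Or.inr ⟨Y, hY, hA.trans hAB⟩

lemma infinite_image_snd (he : Function.Injective e) (k : Fin 3) {Y : Set ℕ} (hY : Y.Infinite) :
    ((fun n : ℕ => e (n, k)) '' Y).Infinite := by
  apply hY.image
  intro a _ b _ hab
  have := he hab
  simpa using this

lemma Base_anti (he : Function.Injective e) : Anti (Base e) := by
  -- it suffices to compare representatives up to finite difference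
  have hfin : ∀ P Q A B : Set α, Equi P A → Equi Q B → A ⊆ B → (P \ Q).Finite := by
    intro P Q A B hP hQ hAB
    have h1 := hP.diff_finite
    have h2 := hQ.symm.diff_finite
    refine (h1.union h2).subset ?_
    rintro x ⟨hx, hx'⟩
    by_cases hxA : x ∈ A
    · exact Or.inr ⟨hAB hxA, hx'⟩
    · exact Or.inl ⟨hx, hxA⟩
  rintro A (hA | ⟨Y, hY, hA⟩) B (hB | ⟨Y', hY', hB⟩) hAB
  · exact (hA.symm.trans hB).eq_of_subset hAB
  · exfalso
    have h := hfin _ _ _ _ hA hB hAB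
    refine infinite_image_snd he 2 Set.infinite_univ (h.subset ?_)
    rintro x ⟨n, -, rfl⟩
    refine ⟨Or.inr ((mem_Tr he _ _ _).2 (Or.inr ⟨by simp, rfl⟩)), ?_⟩
    rw [mem_Tr he]
    simp
  · exfalso
    have h := hfin _ _ _ _ hA hB hAB
    refine infinite_image_snd he 1 hY (h.subset ?_)
    rintro x ⟨n, hn, rfl⟩
    refine ⟨(mem_Tr he _ _ _).2 (Or.inl ⟨hn, rfl⟩), ?_⟩
    rintro (⟨m, hm⟩ | hm)
    · have := he hm
      simp at this
    · simp only [mem_Tr he] at hm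
      simp at hm
  · have h := hfin _ _ _ _ hA hB hAB
    have h1 : (Y \ Y').Finite := by
      by_contra hcon
      refine infinite_image_snd he 1 (Set.not_finite.mp hcon) (h.subset ?_)
      rintro x ⟨n, hn, rfl⟩
      refine ⟨(mem_Tr he _ _ _).2 (Or.inl ⟨hn.1, rfl⟩), ?_⟩
      simp only [mem_Tr he]
      simp [hn.2]
    have h2 : (Y' \ Y).Finite := by
      by_contra hcon
      refine infinite_image_snd he 0 (Set.not_finite.mp hcon) (h.subset ?_)
      rintro x ⟨n, hn, rfl⟩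
      refine ⟨(mem_Tr he _ _ _).2 (Or.inr ⟨hn.2, rfl⟩), ?_⟩
      simp only [mem_Tr he]
      simp [hn.1]
    have h3 : Equi (Tr e 0 1 Y) (Tr e 0 1 Y') := by
      have := equi_Tr he (i := 0) (j := 1) (by decide) (∅ : Set α) (by simp) (by simp) Y Y' h1 h2
      simpa using this
    exact ((hA.symm.trans h3).trans hB).eq_of_subset hAB

end Families

/-- The combinatorial core. -/
theorem core (e : ℕ × Fin 3 → α) (he : Function.Injective e) :
    ∃ 𝓑 : Set (Set α),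
      (∀ A ∈ 𝓑, ∀ B ∈ 𝓑, A ⊆ B → A = B) ∧
      (∀ A ∈ 𝓑, ∀ a ∈ A, ∀ b, b ∉ A → insert b (A \ {a}) ∈ 𝓑) ∧
      (∀ A : Set α, (∃ B ∈ 𝓑, A ⊆ B) ∨ (∃ B ∈ 𝓑, B ⊆ A)) ∧
      ∅ ∉ 𝓑 ∧
      (∀ B ∈ 𝓑, ¬ B ⊆ I0 e) ∧
      (∀ X : Set α, I0 e ⊆ X → X ⊆ X0 e →
        (∃ x ∈ X, ∃ B ∈ 𝓑, B ⊆ X \ {x}) ∨ ((∀ B ∈ 𝓑, ¬ B ⊆ X) ∧ ∃ x ∈ X0 e, x ∉ X)) := by
  obtain ⟨𝓑, hsub, hinv, hanti, hcomp⟩ := exists_maximal (Base e) Base_inv (Base_anti he)
  -- sets `I0 ∪ (finite part of Y0)` contain no member of `𝓑`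
  have hfinY : ∀ Y : Set ℕ, Y.Finite → ∀ X : Set α, I0 e ⊆ X → X ⊆ X0 e →
      (∀ n, e (n, 1) ∈ X → n ∈ Y) → ∀ B ∈ 𝓑, ¬ B ⊆ X := by
    intro Y hY X hIX hXX hXY B hB hBX
    have h1 : Equi (I0 e ∪ Tr e 2 1 ∅) (I0 e ∪ Tr e 2 1 Y) := by
      refine equi_Tr he (by decide) (I0 e) ?_ ?_ ∅ Y (by simp) (by simpa using hY)
      · rintro n ⟨m, hm⟩
        have := he hm
        simp at this
      · rintro n ⟨m, hm⟩
        have := he hm
        simp at this
    have h2 : (I0 e ∪ Tr e 2 1 Y) ∈ 𝓑 := hsub (Or.inl h1)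
    have h3 : B ⊆ I0 e ∪ Tr e 2 1 Y := by
      intro x hx
      obtain ⟨n, (rfl | rfl)⟩ := hXX (hBX hx)
      · exact Or.inl ⟨n, rfl⟩
      · exact Or.inr ((mem_Tr he _ _ _).2 (Or.inl ⟨hXY n (hBX hx), rfl⟩))
    have h4 := hanti B hB _ h2 h3
    -- but `I0 ∪ Tr 2 1 Y` contains some `e (n, 2)`
    obtain ⟨n, hn⟩ := hY.infinite_compl.nonempty
    have h5 : e (n, 2) ∈ B := by
      rw [h4]
      exact Or.inr ((mem_Tr he _ _ _).2 (Or.inr ⟨hn, rfl⟩))
    obtain ⟨m, (hm | hm)⟩ := hXX (hBX h5)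
    · have := he hm
      simp at this
    · have := he hm
      simp at this
  have hI0X0 : I0 e ⊆ X0 e := by
    rintro x ⟨n, rfl⟩
    exact ⟨n, Or.inl rfl⟩
  have hI0 : ∀ B ∈ 𝓑, ¬ B ⊆ I0 e := by
    refine hfinY ∅ Set.finite_empty (I0 e) Subset.rfl hI0X0 ?_
    rintro n ⟨m, hm⟩
    have := he hm
    simp at this
  refine ⟨𝓑, hanti, ?_, hcomp, ?_, hI0, ?_⟩
  · intro A hA a ha b hb
    exact hinv A hA _ (Equi.exchange ha hb)
  · intro h
    exact hI0 ∅ h (empty_subset _)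
  · intro X hIX hXX
    by_cases hfin : {n : ℕ | e (n, 1) ∈ X}.Finite
    · right
      refine ⟨hfinY _ hfin X hIX hXX (fun n hn => hn), ?_⟩
      obtain ⟨n, hn⟩ := hfin.infinite_compl.nonempty
      exact ⟨e (n, 1), ⟨n, Or.inr rfl⟩, hn⟩
    · left
      have hinf : {n : ℕ | e (n, 1) ∈ X}.Infinite := hfin
      obtain ⟨n, hn⟩ := hinf.nonempty
      refine ⟨e (n, 0), hIX ⟨n, rfl⟩, Tr e 0 1 {n : ℕ | e (n, 1) ∈ X}, ?_, ?_⟩
      · exact hsub (Or.inr ⟨_, hinf, Equi.refl _⟩)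
      · rintro x ⟨m, (⟨hm, rfl⟩ | ⟨hm, rfl⟩)⟩
        · refine ⟨hm, ?_⟩
          intro hcon
          have := he hcon
          simp at this
        · refine ⟨hIX ⟨m, rfl⟩, ?_⟩
          intro hcon
          have := he hcon
          simp only [Prod.mk.injEq, and_true] at this
          subst this
          exact hm hn

end Pool.Agent.Work.MP_766cb7_co
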